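import Pool.Agent.TH977.PW.Inst

set_option autoImplicit false

/-!
# The polynomial `m ^ 2 + m + 1`
-/

namespace Pool.Agent.Y532

open Polynomial Finset Filter
open Pool.Agent.TH464.PW Pool.Agent.W182.PW

lemma val_eq (n : ℕ) : (1 : ℤ) * (n : ℤ) ^ 2 + 1 * n + 1 = ((n ^ 2 + n + 1 : ℕ) : ℤ) := by
  push_cast
  ring

lemma hg1 : ∀ p : ℕ, p.Prime → ¬ ((p : ℤ) ∣ (1 : ℤ) ∧ (p : ℤ) ∣ (1 : ℤ) ∧ (p : ℤ) ∣ (1 : ℤ)) := by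
  rintro p hp ⟨h1, -, -⟩
  have h2 : p ∣ 1 := by exact_mod_cast h1
  exact hp.one_lt.ne' (Nat.dvd_one.1 h2)

lemma hD1 : ¬ IsSquare ((1 : ℤ) ^ 2 - 4 * 1 * 1) := by
  rintro ⟨x, hx⟩
  nlinarith [mul_self_nonneg x]

lemma hadm1 : ∀ p : ℕ, p.Prime → ∃ m : ℕ, ¬ p ∣ m ∧ ¬ (p : ℤ) ∣ 1 * (m : ℤ) ^ 2 + 1 * m + 1 := by
  intro p hp
  by_cases h3 : p = 3
  · subst h3
    exact ⟨2, by norm_num, by norm_num⟩
  · refine ⟨1, fun h => hp.one_lt.ne' (Nat.dvd_one.1 h), fun h => ?_⟩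
    rw [val_eq] at h
    have h1 : p ∣ 1 ^ 2 + 1 + 1 := Int.natCast_dvd_natCast.1 h
    exact h3 ((Nat.prime_dvd_prime_iff_eq hp (by norm_num)).1 (by simpa using h1))

end Pool.Agent.Y532
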